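import Pool.Agent.N893.CF.Fin

set_option autoImplicit false

/-!
# Integers `n` for which the least `p₁` in `n = f(p₁) + p₂` is large

Let `f = x² + b x + c`, `b + c` odd (so `f` may be any admissible polynomial of the problem). Every interval of
length `X` contains an odd integer `n`, not a value of `f`, such that `|n - f(t)|` is not a prime for any odd
integer `t` (any integer `t`, if `b` is odd) with `|t| ≤ κ log X (log₂ X)⁴ (log₄ X)² / (log₃ X)⁴`. So in every
representation `n = f(p₁) + p₂` the prime `p₁` is larger than this bound. A typical `n` has a representation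
with `p₁` of order `log n log log n` (the starting result TypicalLeastArgument).

Proof. For odd `b` the numbers `f(t) - n` are the values of a polynomial `t² + b t + c'`, `c' = c - n`; for even `b`
and `t = 2 s + 1` they are the values of `4 s² + (2 b + 4) s + c'`, `c' = 1 + b + c - n`. Given the first two
coefficients `A`, `B`, the theorem `Pool.Agent.N893.CF.main` finds a `c' ≡ 1 (mod 2 A)` in every interval of length `X`,
such that `A s² + B s + c'` is irreducible and `|A s² + B s + c'|` is not a prime for small `s`. Its proof: let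
`N = 2 A s + B` and let `y` be about `(log X) / 10`. With a suitable fixed integer `u` (`N - u` and `N + u` are prime
to `2 A`) one puts `B² - 4 A c' ≡ u² (mod p)` for the primes `p ≤ (log y)^5` and `v < p ≤ y` not dividing `2 A`, where
`log v = log y log₃ y / (14 log₂ y)`. If none of these primes divides the value then, up to few smooth numbers,
`|N - u|` and `|N + u|` are both primes, and Brun's bound saves `(log y)²`. For the other primes a greedy choice of a
root modulo `p` saves `(log y log₃ y)² / (log₂ y)⁴`. The `O(log X)` values left are made composite by the sieve of the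
starting result MP_3bc45c_nt.RecordGaps (`H361R2.PA.assembleM`).
-/

namespace Pool.Agent.Results.MP_d9bc60_nt.LateLeastArguments

/-- The polynomial `f(x) = x² + b x + c`. -/
def f (b c x : ℤ) : ℤ := x ^ 2 + b * x + c

/-- `log X (log₂ X)⁴ (log₄ X)² / (log₃ X)⁴` with the iterated logarithms `log₂, log₃, log₄`. -/
noncomputable def range (X : ℝ) : ℝ :=
  Real.log X * (Real.log (Real.log X)) ^ 4 * (Real.log (Real.log (Real.log (Real.log X)))) ^ 2 /
    (Real.log (Real.log (Real.log X))) ^ 4

lemma interval {z w v : ℤ} {X : ℝ} {c' : ℤ} (hw : w = v - z - ⌊X⌋ - 1) (h1 : (w : ℝ) < c') (h2 : (c' : ℝ) ≤ w + X) :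
    (z : ℝ) < ((v - c' : ℤ) : ℝ) ∧ ((v - c' : ℤ) : ℝ) ≤ z + X := by
  have h3 := Int.floor_le X
  have h4 := Int.lt_floor_add_one X
  have hwr : (w : ℝ) = v - z - (⌊X⌋ : ℝ) - 1 := by
    rw [hw]
    push_cast
    ring
  have h5 : w + 1 ≤ c' := by exact_mod_cast h1
  have h6 : (w : ℝ) + 1 ≤ c' := by exact_mod_cast h5
  push_cast
  constructor <;> linarith

/-- For all integers `b`, `c` with `b + c` odd there are `κ > 0` and `X₀` such that for all `X ≥ X₀` every interval
`(z, z + X]` contains an odd integer `n`, not a value of `f` at an integer, such that `|n - f(t)|` is not a prime for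
any integer `t` with `|t| ≤ κ * range X`, provided `t` or `b` is odd. If moreover `z ≥ X₀` then `p₁ > κ * range X` for
all primes `p₁`, `p₂` with `n = f(p₁) + p₂`. -/
theorem result (b c : ℤ) (hbc : Odd (b + c)) : ∃ κ : ℝ, 0 < κ ∧ ∃ X₀ : ℝ, ∀ X : ℝ, X₀ ≤ X → ∀ z : ℤ,
    ∃ n : ℤ, (z : ℝ) < n ∧ (n : ℝ) ≤ z + X ∧ Odd n ∧ (∀ m : ℤ, f b c m ≠ n) ∧
      (∀ t : ℤ, Odd t ∨ Odd b → |(t : ℝ)| ≤ κ * range X → ¬ (n - f b c t).natAbs.Prime) ∧
      (X₀ ≤ z → ∀ p₁ p₂ : ℕ, p₁.Prime → p₂.Prime → n = f b c p₁ + p₂ → κ * range X < p₁) := by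
  rcases Int.even_or_odd b with hb | hb
  · -- even b
    have hc : Odd c := by
      obtain ⟨i, hi⟩ := hb
      obtain ⟨j, hj⟩ := hbc
      exact ⟨j - i, by omega⟩
    obtain ⟨κ, hκ, X₀, h⟩ := Pool.Agent.N893.CF.main 4 (by norm_num) (2 * b + 4)
    refine ⟨κ, hκ, max X₀ ((f b c 2 : ℤ) + 2), fun X hX z => ?_⟩
    have hX0 : X₀ ≤ X := (le_max_left _ _).trans hX
    obtain ⟨c', h1, h2, h3, h4, h5⟩ := h X hX0 ((1 + b + c) - z - ⌊X⌋ - 1)
    have hint := interval (z := z) (v := 1 + b + c) rfl h1 h2
    set n := 1 + b + c - c' with hn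
    have hodd : Odd n := by
      obtain ⟨i, hi⟩ := hb
      obtain ⟨j, hj⟩ := hc
      obtain ⟨k, hk⟩ := h3
      push_cast at hk
      exact ⟨i + j - 4 * k, by omega⟩
    have hmain : ∀ t : ℤ, Odd t → |(t : ℝ)| ≤ κ * range X → ¬ (n - f b c t).natAbs.Prime := by
      intro t ht htX hp
      obtain ⟨s, rfl⟩ := ht
      have hs : |(s : ℝ)| ≤ |((2 * s + 1 : ℤ) : ℝ)| := by
        have h6 : |s| ≤ |2 * s + 1| := by
          rcases le_or_gt 0 s with hs | hs
          · rw [abs_of_nonneg hs, abs_of_nonneg (by omega)]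
            omega
          · rw [abs_of_neg hs, abs_of_neg (by omega)]
            omega
        exact_mod_cast h6
      refine h5 s (hs.trans htX) ?_
      rw [Int.prime_iff_natAbs_prime]
      have e : (((4 : ℕ) : ℤ) * s ^ 2 + (2 * b + 4) * s + c') = -(n - f b c (2 * s + 1)) := by
        rw [hn]
        unfold f
        push_cast
        ring
      rw [e, Int.natAbs_neg]
      exact hp
    refine ⟨n, hint.1, hint.2, hodd, fun m hm => ?_, fun t ht htX => ?_, fun hz p₁ p₂ hp₁ hp₂ hrep => ?_⟩
    · refine h4 ?_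
      refine ⟨2 * (2 * m + b), ?_⟩
      have e : c' = 1 + b + c - n := by rw [hn]; ring
      rw [e, ← hm]
      unfold f
      push_cast
      ring
    · rcases ht with ht | ht
      · exact hmain t ht htX
      · exact absurd hb (Int.not_even_iff_odd.2 ht)
    · by_contra hcon
      push Not at hcon
      rcases hp₁.eq_two_or_odd' with h2' | hodd1
      · -- p₁ = 2
        subst h2'
        have hzr : ((f b c 2 : ℤ) : ℝ) + 2 ≤ z := (le_max_right _ _).trans hz
        have hn2 : f b c 2 + 2 < n := by
          have : ((f b c 2 + 2 : ℤ) : ℝ) < (n : ℝ) := by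
            push_cast
            linarith [hint.1]
          exact_mod_cast this
        have hp2 : 2 < p₂ := by
          have h6 : n = f b c 2 + p₂ := by simpa using hrep
          omega
        have hp2odd := hp₂.eq_two_or_odd'
        rcases hp2odd with h7 | h7
        · omega
        · have h6 : n = f b c 2 + p₂ := by simpa using hrep
          obtain ⟨i, hi⟩ := hb
          obtain ⟨j, hj⟩ := hc
          obtain ⟨k, hk⟩ := h7
          obtain ⟨l, hl⟩ := hodd
          unfold f at h6
          rw [hi, hj, hk, hl] at h6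
          push_cast at h6
          omega
      · have h6 : (n - f b c (p₁ : ℤ)).natAbs = p₂ := by
          rw [hrep]
          simp
        refine hmain (p₁ : ℤ) (by exact_mod_cast hodd1) ?_ (by rw [h6]; exact hp₂)
        rw [Int.cast_natCast, abs_of_nonneg (Nat.cast_nonneg p₁)]
        exact hcon
  · -- odd b
    have hc : Even c := by
      obtain ⟨i, hi⟩ := hb
      obtain ⟨j, hj⟩ := hbc
      exact ⟨j - i, by omega⟩
    obtain ⟨κ, hκ, X₀, h⟩ := Pool.Agent.N893.CF.main 1 le_rfl b
    refine ⟨κ, hκ, X₀, fun X hX z => ?_⟩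
    obtain ⟨c', h1, h2, h3, h4, h5⟩ := h X hX (c - z - ⌊X⌋ - 1)
    have hint := interval (z := z) (v := c) rfl h1 h2
    set n := c - c' with hn
    have hmain : ∀ t : ℤ, |(t : ℝ)| ≤ κ * range X → ¬ (n - f b c t).natAbs.Prime := by
      intro t htX hp
      refine h5 t htX ?_
      rw [Int.prime_iff_natAbs_prime]
      have e : (((1 : ℕ) : ℤ) * t ^ 2 + b * t + c') = -(n - f b c t) := by
        rw [hn]
        unfold f
        push_cast
        ring
      rw [e, Int.natAbs_neg]
      exact hp
    refine ⟨n, hint.1, hint.2, ?_, fun m hm => ?_, fun t _ htX => hmain t htX, fun hz p₁ p₂ hp₁ hp₂ hrep => ?_⟩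
    · obtain ⟨i, hi⟩ := hc
      obtain ⟨k, hk⟩ := h3
      push_cast at hk
      exact ⟨i - k - 1, by omega⟩
    · refine h4 ?_
      refine ⟨2 * m + b, ?_⟩
      have e : c' = c - n := by rw [hn]; ring
      rw [e, ← hm]
      unfold f
      push_cast
      ring
    · by_contra hcon
      push Not at hcon
      have h6 : (n - f b c (p₁ : ℤ)).natAbs = p₂ := by
        rw [hrep]
        simp
      refine hmain (p₁ : ℤ) ?_ (by rw [h6]; exact hp₂)
      rw [Int.cast_natCast, abs_of_nonneg (Nat.cast_nonneg p₁)]
      exact hcon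

end Pool.Agent.Results.MP_d9bc60_nt.LateLeastArguments
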