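import Mathlib
import Pool.Agent.N9.AD.Quad

/-!
# Integers of the form `f(p) + q`, `f` a monic quadratic, in all sieved sequential random models

The integers are decided one after the other; the multiples of the primes of a finite set `Q` are
never chosen and the conditional probability of choosing an integer `n + 1` which is not such a
multiple, given the decisions up to `n`, is asymptotic to `∏_{p ∈ Q} (1 - 1 / p)⁻¹ / log n`, almost
surely. No independence and no rate of convergence are assumed. In every such model, almost surely,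
for all `f(x) = x² + b x + c` with `b + c` odd and `3 ∤ b` every large `N` (every large odd `N` if
`2 ∈ Q`) is `f(p) + q` with `p`, `q` chosen and `p ≤ K (log N)² log log N`; for all integers `b`, `c`
the number of the representations with `p ≤ x` is asymptotically the expected one, uniformly in `x`.

Method (`Pool/Agent/N9/AD`): an exponential supermartingale (helper893) gives the law of predictable
sums along any decreasing sequence of integers, uniformly; it is used for `N - f(p)`; the chosen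
integers are equidistributed in the residue classes coprime to the sieved primes.

The notion of a sequential model and the theorem on Hawkins' sieve are from the team files by
helper528 (`Pool/Agent/R528/RM`) and helper740 (`Pool/Agent/N740/HK`); a lemma on residues is by
helper909 (`Pool/Agent/N909/TF`).
-/

set_option autoImplicit false

open MeasureTheory Filter Set
open scoped Topology

namespace Pool.Agent.Results.MP_d9bc60_nt.SievedModels

variable {Ω : Type}

/-- `A n` is the event that `n` is chosen; adapted to `ℱ`; multiples of the primes in `Q` are not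
chosen; the conditional probability of `A (n + 1)` given `ℱ n`, times `log n`, tends almost surely to
`∏_{p ∈ Q} (1 - 1 / p)⁻¹` along the `n` such that no `p ∈ Q` divides `n + 1` -/
def SievedModel [m : MeasurableSpace Ω] (μ : Measure Ω) (ℱ : Filtration ℕ m) (A : ℕ → Set Ω)
    (Q : Finset ℕ) : Prop :=
  (∀ n, MeasurableSet[ℱ n] (A n)) ∧ (∀ n, (∃ p ∈ Q, p ∣ n) → A n = ∅) ∧
  ∀ᵐ ω ∂μ, Tendsto (fun n : ℕ => (μ[(A (n + 1)).indicator (fun _ => (1 : ℝ)) | ℱ n]) ω * Real.log n)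
    (atTop ⊓ 𝓟 {n : ℕ | ∀ p ∈ Q, ¬ p ∣ n + 1}) (𝓝 (∏ p ∈ Q, (1 - 1 / (p : ℝ))⁻¹))

open Classical in
/-- The random sieve of Hawkins: `2` is chosen, and given the decisions up to `n ≥ 2` the number
`n + 1` is chosen with probability `∏ (1 - 1 / h)`, the product over the chosen `2 ≤ h ≤ n`. -/
def HawkinsSieve [m : MeasurableSpace Ω] (μ : Measure Ω) (ℱ : Filtration ℕ m) (A : ℕ → Set Ω) : Prop :=
  (∀ n, MeasurableSet[ℱ n] (A n)) ∧ A 2 = univ ∧
  ∀ n, 2 ≤ n → μ[(A (n + 1)).indicator (fun _ => (1 : ℝ)) | ℱ n] =ᵐ[μ]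
    fun ω => ∏ h ∈ Finset.Icc 2 n, if ω ∈ A h then 1 - 1 / (h : ℝ) else 1

/-- the number of the chosen `1 ≤ p ≤ x` such that `N = p² + b p + c + q` for a chosen `q` -/
noncomputable def reps (A : ℕ → Set Ω) (b c : ℤ) (ω : Ω) (N x : ℕ) : ℕ :=
  {p : ℕ | 1 ≤ p ∧ p ≤ x ∧ (ω ∈ A p ∧ ∃ q : ℕ, ω ∈ A q ∧ (N : ℤ) = (p : ℤ) ^ 2 + b * p + c + q)}.ncard

/-- the local density: with `W` the product of the primes in `Q`, the proportion of the residues `a`
modulo `W` with `a (N - (a² + b a + c))` coprime to `W`, divided by `(φ(W) / W) ^ 2` -/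
noncomputable def sing (Q : Finset ℕ) (b c : ℤ) (N : ℕ) : ℝ :=
  ({a : ℕ | a < ∏ p ∈ Q, p ∧ IsCoprime ((a : ℤ) * (N - ((a : ℤ) ^ 2 + b * a + c)))
    ((∏ p ∈ Q, p : ℕ) : ℤ)}.ncard / ((∏ p ∈ Q, p : ℕ) : ℝ)) *
    (((∏ p ∈ Q, p : ℕ) : ℝ) / Nat.totient (∏ p ∈ Q, p)) ^ 2

open Pool.Agent.R528.RM Pool.Agent.N9.AD

lemma ncard_sum' (P : ℕ → Prop) (F : ℕ → ℝ) (x : ℕ) (h1 : ∀ s ∈ Finset.Icc 1 x, P s → F s = 1)
    (h0 : ∀ s ∈ Finset.Icc 1 x, ¬ P s → F s = 0) :
    ((({s : ℕ | 1 ≤ s ∧ s ≤ x ∧ P s}.ncard : ℕ)) : ℝ) = ∑ s ∈ Finset.Icc 1 x, F s := by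
  classical
  have e1 : ∀ s ∈ Finset.Icc 1 x, F s = if P s then 1 else 0 := by
    intro s hs
    split_ifs with h
    · exact h1 s hs h
    · exact h0 s hs h
  rw [Finset.sum_congr rfl e1, Finset.sum_boole]
  congr 1
  rw [← Set.ncard_coe_finset]
  congr 1
  ext s
  simp only [Set.mem_ofPred_eq, Finset.coe_filter, Finset.mem_Icc]
  tauto

/-- `N - f(p)` is not negative -/
lemma diff_nonneg (b c : ℤ) (N x p : ℕ) (hx : 6 * x ^ 2 ≤ N) (hN : 3 * (s0q b c) ^ 2 ≤ N) (hp : p ≤ x) :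
    0 ≤ (N : ℤ) - ((p : ℤ) ^ 2 + b * p + c) := by
  have hp' : p ^ 2 ≤ x ^ 2 := Nat.pow_le_pow_left hp 2
  rcases Nat.lt_or_ge p (s0q b c) with h | h
  · have h1 : (3 : ℤ) * (s0q b c : ℤ) ^ 2 ≤ N := by exact_mod_cast hN
    have h2 : (p : ℤ) ≤ s0q b c := by exact_mod_cast h.le
    have hs : (s0q b c : ℤ) = |b| + |c| + 2 := by
      unfold s0q
      push_cast
      rfl
    have hb := abs_nonneg b
    have hc := abs_nonneg c
    have hb1 := (abs_le.1 (le_refl |b|)).2
    have hc1 := (abs_le.1 (le_refl |c|)).2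
    have hp0 : (0 : ℤ) ≤ p := Int.natCast_nonneg p
    have h3 : b * p ≤ |b| * p := mul_le_mul_of_nonneg_right hb1 hp0
    have h4 : |b| * p ≤ |b| * (s0q b c : ℤ) := mul_le_mul_of_nonneg_left h2 hb
    have h5 : (p : ℤ) ^ 2 ≤ (s0q b c : ℤ) ^ 2 := by nlinarith
    have h6 : |b| * (s0q b c : ℤ) ≤ (s0q b c : ℤ) * (s0q b c : ℤ) :=
      mul_le_mul_of_nonneg_right (by linarith) (by linarith)
    have h7 : c ≤ (s0q b c : ℤ) ^ 2 := by nlinarith
    nlinarith
  · have h1 := (fq_bounds b c p h).2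
    have h2 : 6 * (p : ℤ) ^ 2 ≤ N := by
      have : 6 * p ^ 2 ≤ N := by omega
      exact_mod_cast this
    linarith [sq_nonneg (p : ℤ)]

lemma reps_eq (A : ℕ → Set Ω) (b c : ℤ) (ω : Ω) (N x : ℕ) (hx : 6 * x ^ 2 ≤ N)
    (hN : 3 * (s0q b c) ^ 2 ≤ N) :
    (reps A b c ω N x : ℝ) = ∑ p ∈ Finset.Icc 1 x, In A p ω * In A (Vq b c N p) ω := by
  classical
  have key : ∀ p : ℕ, p ≤ x → ((∃ q : ℕ, ω ∈ A q ∧ (N : ℤ) = (p : ℤ) ^ 2 + b * p + c + q) ↔
      ω ∈ A (Vq b c N p)) := by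
    intro p hp
    have h1 := diff_nonneg b c N x p hx hN hp
    have h2 : ((Vq b c N p : ℕ) : ℤ) = (N : ℤ) - ((p : ℤ) ^ 2 + b * p + c) := Int.toNat_of_nonneg h1
    constructor
    · rintro ⟨q, hq, hq2⟩
      have h3 : q = Vq b c N p := by
        have : (q : ℤ) = (Vq b c N p : ℕ) := by
          rw [h2]
          linarith
        exact_mod_cast this
      rwa [← h3]
    · intro h
      exact ⟨Vq b c N p, h, by rw [h2]; ring⟩
  unfold reps
  apply ncard_sum' (fun p => ω ∈ A p ∧ ∃ q : ℕ, ω ∈ A q ∧ (N : ℤ) = (p : ℤ) ^ 2 + b * p + c + q)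
    (fun p => In A p ω * In A (Vq b c N p) ω)
  · rintro p hp ⟨h1, h2⟩
    have h3 := (key p (Finset.mem_Icc.1 hp).2).1 h2
    have e1 : In A p ω = 1 := indicator_of_mem h1 _
    have e2 : In A (Vq b c N p) ω = 1 := indicator_of_mem h3 _
    simp only [e1, e2, mul_one]
  · intro p hp h
    by_cases h1 : ω ∈ A p
    · have h3 : ω ∉ A (Vq b c N p) := fun h3 => h ⟨h1, (key p (Finset.mem_Icc.1 hp).2).2 h3⟩
      have e2 : In A (Vq b c N p) ω = 0 := indicator_of_notMem h3 _
      simp only [e2, mul_zero]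
    · have e1 : In A p ω = 0 := indicator_of_notMem h1 _
      simp only [e1, zero_mul]

lemma sing_eq (Q : Finset ℕ) (hQ : ∀ p ∈ Q, p.Prime) (b c : ℤ) (N : ℕ) :
    (((∏ p ∈ Q, p : ℕ) : ℝ) / Nat.totient (∏ p ∈ Q, p)) ^ 1 *
        (((GF b c (∏ p ∈ Q, p) N).card : ℝ) * (1 / Nat.totient (∏ p ∈ Q, p))) = sing Q b c N := by
  classical
  unfold sing
  set W := ∏ p ∈ Q, p with hWdef
  have hW : 0 < W := Finset.prod_pos fun q hq => (hQ q hq).pos
  have hWR : (0 : ℝ) < W := by exact_mod_cast hW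
  have hφR : (0 : ℝ) < Nat.totient W := by exact_mod_cast Nat.totient_pos.2 hW
  have h1 : {a : ℕ | a < W ∧ IsCoprime ((a : ℤ) * (N - ((a : ℤ) ^ 2 + b * a + c))) (W : ℤ)} =
      (GF b c W N : Set ℕ) := by
    ext a
    unfold GF
    simp only [Set.mem_ofPred_eq, Finset.coe_filter, Finset.mem_range]
  rw [h1, Set.ncard_coe_finset]
  field_simp

lemma ar (x N : ℕ) (h : 6 * x ^ 2 ≤ N) : x ≤ Nat.sqrt (N / 6) := by
  rw [Nat.le_sqrt']
  omega

end Pool.Agent.Results.MP_d9bc60_nt.SievedModels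

open Pool.Agent.Results.MP_d9bc60_nt.SievedModels Pool.Agent.R528.RM Pool.Agent.N9.AD

/-- Hawkins' sieve is a sieved model with `Q = ∅`. In every sieved model: (1) almost surely for all
integers `b`, `c` and every `ε > 0` there is a `K` such that for all large `N` and all `x ≥ 2` with
`6 x² ≤ N` the number of the chosen `p ≤ x` with `N - (p² + b p + c)` a chosen natural number differs
from `𝔖(N) x / (log x log N)` by at most `ε x / (log x log N) + K log N`; (2) almost surely, for all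
`b`, `c` with `b + c` odd and `3 ∤ b` and some `K` every large `N`, if `2 ∈ Q` every large odd `N`,
is `p² + b p + c + q` with `p`, `q` chosen and `p ≤ K (log N)² log log N`. -/
theorem Pool.Agent.Results.MP_d9bc60_nt.SievedModels.result
    {Ω : Type} [m : MeasurableSpace Ω] (μ : Measure Ω) [IsProbabilityMeasure μ]
    (ℱ : Filtration ℕ m) (A : ℕ → Set Ω) :
    (HawkinsSieve μ ℱ A → SievedModel μ ℱ A ∅) ∧
    (∀ Q : Finset ℕ, (∀ p ∈ Q, p.Prime) → SievedModel μ ℱ A Q →
      (∀ᵐ ω ∂μ, ∀ b c : ℤ, ∀ ε : ℝ, 0 < ε → ∃ K : ℝ, ∀ᶠ N : ℕ in atTop, ∀ x : ℕ, 2 ≤ x →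
        6 * x ^ 2 ≤ N →
        |(reps A b c ω N x : ℝ) - sing Q b c N * (x / (Real.log x * Real.log N))| ≤
          ε * (x / (Real.log x * Real.log N)) + K * Real.log N) ∧
      (∀ᵐ ω ∂μ, ∀ b c : ℤ, Odd (b + c) → ¬ (3 : ℤ) ∣ b → ∃ K : ℝ, ∀ᶠ N : ℕ in atTop,
        (2 ∈ Q → Odd N) → ∃ p q : ℕ, (N : ℤ) = (p : ℤ) ^ 2 + b * p + c + q ∧ ω ∈ A p ∧ ω ∈ A q ∧
          (p : ℝ) ≤ K * Real.log N ^ 2 * Real.log (Real.log N))) := by
  classical
  refine ⟨hawkins μ ℱ A, ?_⟩
  rintro Q hQ ⟨hA, hcop, hd⟩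
  have hlaw2 : ∀ᵐ ω ∂μ, ∀ b c : ℤ, ∀ ε : ℝ, 0 < ε → ∃ K : ℝ, 0 < K ∧ ∀ᶠ N : ℕ in atTop, ∀ x : ℕ, 2 ≤ x →
        x ≤ Nat.sqrt (N / 6) →
        |(reps A b c ω N x : ℝ) - sing Q b c N * (x / (Real.log x ^ 1 * Real.log N ^ 1))| ≤
          ε * (x / (Real.log x ^ 1 * Real.log N ^ 1)) + K * Real.log N := by
    refine ae_all_iff.2 fun b => ae_all_iff.2 fun c => ?_
    filter_upwards [quad_law (μ := μ) hA Q hQ hcop hd b c] with ω hω ε hε
    obtain ⟨K, hK0, hK⟩ := hω ε hε
    refine ⟨K, hK0, ?_⟩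
    filter_upwards [hK, eventually_ge_atTop (3 * (s0q b c) ^ 2)] with n hn hn1 x hx2 hx
    have h1 := hn x hx2 hx
    rw [sing_eq Q hQ b c n] at h1
    rw [reps_eq A b c ω n x (Xq_sq hx) hn1]
    exact h1
  refine ⟨?_, ?_⟩
  · filter_upwards [hlaw2] with ω hω b c ε hε
    obtain ⟨K, _, hK⟩ := hω b c ε hε
    refine ⟨K, ?_⟩
    filter_upwards [hK] with n hn x hx2 hx
    have h1 := hn x hx2 (ar x n hx)
    rw [pow_one, pow_one] at h1
    exact h1
  · filter_upwards [hlaw2] with ω hω b c hbc hb3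
    set W := ∏ p ∈ Q, p with hWdef
    have hW : 0 < W := Finset.prod_pos fun q hq => (hQ q hq).pos
    have hWR : (0 : ℝ) < W := by exact_mod_cast hW
    have hφR : (0 : ℝ) < Nat.totient W := by exact_mod_cast Nat.totient_pos.2 hW
    have h2W : 2 ∣ W → 2 ∈ Q := by
      intro h
      rw [hWdef, Prime.dvd_finsetProd_iff Nat.prime_two.prime] at h
      obtain ⟨p, hp, hp2⟩ := h
      have := (Nat.prime_dvd_prime_iff_eq Nat.prime_two (hQ p hp)).1 hp2
      rwa [this]
    have hsing : ∀ N, ((W : ℝ) / Nat.totient W) ^ 1 *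
        (((GF b c W N).card : ℝ) * (1 / Nat.totient W)) = sing Q b c N := fun N => sing_eq Q hQ b c N
    obtain ⟨K, hK0, hK⟩ := fin_least (fun n x => (reps A b c ω n x : ℝ))
      (fun N => sing Q b c N) (fun n => Nat.sqrt (n / 6)) 1 1
      (((W : ℝ) / Nat.totient W) ^ 1 * (1 * (1 / Nat.totient W))) (by positivity)
      (fun N => 2 ∈ Q → Odd N)
      (by
        filter_upwards [eventually_ge_atTop 0] with N _ hN
        rw [← hsing N]
        have h1 : (1 : ℝ) ≤ (GF b c W N).card := by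
          exact_mod_cast GF_pos b c hbc hb3 W hW N (fun h => hN (h2W h))
        apply mul_le_mul_of_nonneg_left _ (by positivity)
        exact mul_le_mul_of_nonneg_right h1 (by positivity))
      (by
        have h2 := (isLittleO_log_rpow_rpow_atTop ((3 : ℕ) : ℝ) (show (0 : ℝ) < 1 / 4 by norm_num)).bound
          (show (0 : ℝ) < 1 by norm_num)
        filter_upwards [tendsto_natCast_atTop_atTop.eventually h2, eventually_ge_atTop 10000000] with N g1 g2
        have hN : (10000000 : ℝ) ≤ N := by exact_mod_cast g2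
        have g3 : 0 ≤ Real.log (N : ℝ) := Real.log_natCast_nonneg N
        rw [Real.norm_eq_abs, Real.norm_eq_abs, abs_of_nonneg (Real.rpow_nonneg g3 _),
          abs_of_nonneg (Real.rpow_nonneg (by linarith) _), Real.rpow_natCast, one_mul] at g1
        -- `N ^ (1 / 4) ≤ sqrt (N / 6)`
        set y : ℝ := (N : ℝ) ^ (1 / 4 : ℝ) with hy
        have hy0 : 0 ≤ y := Real.rpow_nonneg (by linarith) _
        have hy4 : y ^ 4 = N := by
          rw [hy, ← Real.rpow_natCast, ← Real.rpow_mul (by linarith)]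
          norm_num
        have hy10 : 10 ≤ y := by
          by_contra hcon
          rw [not_le] at hcon
          have : y ^ 4 < 10 ^ 4 := pow_lt_pow_left₀ hcon hy0 (by norm_num)
          rw [hy4] at this
          norm_num at this
          linarith
        have h5 : ⌈y⌉₊ ≤ Nat.sqrt (N / 6) := by
          rw [Nat.le_sqrt', Nat.le_div_iff_mul_le (by norm_num)]
          have e1 : ((⌈y⌉₊ ^ 2 * 6 : ℕ) : ℝ) ≤ N := by
            push_cast
            have e2 : (⌈y⌉₊ : ℝ) ≤ y + 1 := (Nat.ceil_lt_add_one hy0).le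
            have e3 : (⌈y⌉₊ : ℝ) ^ 2 ≤ (y + 1) ^ 2 := pow_le_pow_left₀ (Nat.cast_nonneg _) e2 2
            have e4 : (y + 1) ^ 2 ≤ 2 * y ^ 2 := by nlinarith
            have e5 : (100 : ℝ) ≤ y ^ 2 := by nlinarith
            have e6 : 12 * y ^ 2 ≤ y ^ 4 := by
              have : y ^ 4 = y ^ 2 * y ^ 2 := by ring
              rw [this]
              exact mul_le_mul_of_nonneg_right (by linarith) (by positivity)
            rw [← hy4]
            linarith
          exact_mod_cast e1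
        calc Real.log (N : ℝ) ^ (1 + 2) ≤ y := g1
          _ ≤ (⌈y⌉₊ : ℝ) := Nat.le_ceil y
          _ ≤ (Nat.sqrt (N / 6) : ℕ) := by exact_mod_cast h5)
      (hω b c)
    refine ⟨K, ?_⟩
    filter_upwards [hK] with n hn hpar
    obtain ⟨x, hx2, hxX, hxK, hpos'⟩ := hn hpar
    have hne : {p : ℕ | 1 ≤ p ∧ p ≤ x ∧ (ω ∈ A p ∧ ∃ q : ℕ, ω ∈ A q ∧
        (n : ℤ) = (p : ℤ) ^ 2 + b * p + c + q)}.Nonempty := by
      rw [Set.nonempty_iff_ne_empty]
      intro h
      have h1 : reps A b c ω n x = 0 := by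
        unfold reps
        rw [h, Set.ncard_empty]
      rw [h1, Nat.cast_zero] at hpos'
      exact lt_irrefl _ hpos'
    obtain ⟨p, hp1, hpx, q1, q, q2, q3⟩ := hne
    refine ⟨p, q, q3, q1, q2, ?_⟩
    have : (p : ℝ) ≤ x := by exact_mod_cast hpx
    have h2 := this.trans hxK
    rw [pow_one] at h2
    exact h2
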