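import Pool.Agent.N837.LP.GenV

set_option autoImplicit false

/-!
# Odd numbers without a representation `n = f(p₁) + p₂` with `p₁` in a given set of `A log n` numbers

For every `A` and `0 < η ≤ 1`, every large `X`, every `f = x² + b x + c` with `|b| ≤ X ^ (1/4)`,
`|c| ≤ X / 8` and EVERY set `S` of at most `A log X` natural numbers `m ≤ X ^ (1/4)`, a positive
proportion of the odd numbers `n` in `(X, X + X ^ η]` is such that `n - f(m)` is composite for all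
`m ∈ S`, with a prime factor at most `X ^ (η δ)`.
-/

theorem Pool.Agent.Results.MP_d9bc60_nt.SparseArgumentsTail.result (δ : ℝ) (hδ : 0 < δ) :
    ∃ C : ℝ, 0 < C ∧ ∀ A η : ℝ, 1 ≤ A → 0 < η → η ≤ 1 →
    ∃ X₀ : ℝ, ∀ X : ℝ, X₀ ≤ X → ∀ b c : ℤ, |(b : ℝ)| ≤ X ^ (1 / 4 : ℝ) → |(c : ℝ)| ≤ X / 8 →
    ∀ S : Finset ℕ, (S.card : ℝ) ≤ A * Real.log X → (∀ m ∈ S, (m : ℝ) ≤ X ^ (1 / 4 : ℝ)) →
    X ^ η * Real.exp (-Real.exp (C * A / η)) ≤
      (({n : ℕ | Odd n ∧ X < n ∧ (n : ℝ) ≤ X + X ^ η ∧ ∀ m ∈ S, ∃ q : ℕ, q.Prime ∧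
        (q : ℝ) ≤ X ^ (η * δ) ∧ (q : ℤ) ∣ (n : ℤ) - ((m : ℤ) ^ 2 + b * m + c) ∧
        (q : ℤ) < (n : ℤ) - ((m : ℤ) ^ 2 + b * m + c)}).ncard : ℝ) := by
  obtain ⟨C, hC, h⟩ := Pool.Agent.N837.LP.genV δ hδ
  refine ⟨C, hC, fun A η hA hη hη1 => ?_⟩
  obtain ⟨X₀, hX₀⟩ := h A η hA hη hη1
  refine ⟨max X₀ 64, fun X hX b c hb hc S hS hSX => ?_⟩
  have hX64 : 64 ≤ X := (le_max_right _ _).trans hX
  have hX0 : 0 < X := by linarith
  have hr : 0 ≤ X ^ (1 / 4 : ℝ) := Real.rpow_nonneg hX0.le _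
  have hrr : X ^ (1 / 4 : ℝ) * X ^ (1 / 4 : ℝ) ≤ X / 8 := by
    have e1 : X ^ (1 / 4 : ℝ) * X ^ (1 / 4 : ℝ) = X ^ (1 / 2 : ℝ) := by
      rw [← Real.rpow_add hX0]
      norm_num
    have e2 : X ^ (1 / 2 : ℝ) * X ^ (1 / 2 : ℝ) = X := by
      rw [← Real.rpow_add hX0]
      norm_num
    have e3 : 0 ≤ X ^ (1 / 2 : ℝ) := Real.rpow_nonneg hX0.le _
    have e4 : 8 ≤ X ^ (1 / 2 : ℝ) := by
      by_contra hcon
      push Not at hcon
      nlinarith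
    rw [e1]
    nlinarith
  have h1 := hX₀ X ((le_max_left _ _).trans hX) (S.image (fun m : ℕ => (m : ℤ) ^ 2 + b * m + c))
    (le_trans (by exact_mod_cast Finset.card_image_le) hS)
    (by
      intro t ht
      rw [Finset.mem_image] at ht
      obtain ⟨m, hm, rfl⟩ := ht
      have hm0 : (0:ℝ) ≤ m := Nat.cast_nonneg m
      have hm1 := hSX m hm
      push_cast
      have e1 : |(m:ℝ) ^ 2 + b * m + c| ≤ |(m:ℝ) ^ 2| + |(b:ℝ) * m| + |(c:ℝ)| :=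
        (abs_add_le _ _).trans (by linarith [abs_add_le ((m:ℝ) ^ 2) ((b:ℝ) * m)])
      have e2 : |(m:ℝ) ^ 2| ≤ X ^ (1 / 4 : ℝ) * X ^ (1 / 4 : ℝ) := by
        rw [abs_of_nonneg (by positivity), sq]
        exact mul_le_mul hm1 hm1 hm0 hr
      have e3 : |(b:ℝ) * m| ≤ X ^ (1 / 4 : ℝ) * X ^ (1 / 4 : ℝ) := by
        rw [abs_mul, abs_of_nonneg hm0]
        exact mul_le_mul hb hm1 hm0 hr
      linarith)
    1
  refine h1.trans (Nat.cast_le.2 (Set.ncard_le_ncard ?_ ?_))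
  · intro n hn
    obtain ⟨q1, q2, q3, q4⟩ := hn
    refine ⟨?_, q1, q2, fun m hm => q4 _ (Finset.mem_image_of_mem _ hm)⟩
    have e1 : (n : ℤ) % 2 = 1 := by simpa using q3
    have e2 : n % 2 = 1 := by omega
    exact Nat.odd_iff.2 e2
  · apply (Set.finite_Iic ⌊X + X ^ η⌋₊).subset
    intro a ha
    obtain ⟨_, _, h2, _⟩ := ha
    rw [Set.mem_Iic]
    exact Nat.le_floor h2
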