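import Pool.Agent.N39.RW.UniA2

set_option autoImplicit false

/-!
# `n = f(p) + P_R` with `p` in short windows, for every `n`

For every odd `n ∉ f(ℤ)`, `f(x) = x² + b x + c` with `b + c` odd and `3 ∤ b`, and every `X` with `n^(1/A) ≤ X ≤ √n / 8`:
around a positive proportion of the integers of `(X, 2X]` ALL windows of length at least `K / V` contain the correct
order of magnitude of primes `p` for which `n - f(p)` is a product of boundedly many primes; uniformly in `f` and `n`.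
-/

namespace Pool.Agent.Results.MP_d9bc60_nt.WindowsOfArguments

open Filter

/-- the polynomial `x² + b x + c` -/
def f (b c x : ℤ) : ℤ := x ^ 2 + b * x + c

/-- the number of the residues `m` modulo `q` with `q ∣ m (n - f(m))` -/
def nu (n b c : ℤ) (q : ℕ) : ℕ := ((Finset.range q).filter (fun m : ℕ => (q : ℤ) ∣ m * (n - f b c m))).card

/-- the product of the `1 - ν(q) / q` over the primes `q ≤ X` -/
noncomputable def V (n b c : ℤ) (X : ℕ) : ℝ :=
  ∏ q ∈ (Finset.Icc 1 X).filter Nat.Prime, (1 - (nu n b c q : ℝ) / q)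

/-- `p` is a prime and `n = f(p) + P` where `P` is a positive integer, a product of at most `R` primes, all of them
larger than `z` -/
def Good (n b c : ℤ) (R : ℕ) (z : ℝ) (p : ℕ) : Prop :=
  p.Prime ∧ ∃ P : ℕ, n = f b c p + P ∧ 0 < P ∧ P.primeFactorsList.length ≤ R ∧
    ∀ q : ℕ, q.Prime → q ∣ P → z < (q : ℝ)

/-- all prime factors of `m (n - f(m))` are larger than `z` -/
def Sieved (n b c : ℤ) (z : ℝ) (m : ℕ) : Prop :=
  ∀ q : ℕ, q.Prime → (q : ℤ) ∣ m * (n - f b c m) → z < (q : ℝ)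

/-- `s` is regular: in ALL windows `(u, v]` with `u ≤ s ≤ v` and `K / V ≤ v - u ≤ s` there are at least
`c₁ (v - u) V` good primes `p` and at most `c₂ (v - u) V` sieved integers; the parameters are `R = (A + 1) r` and
`z = X^(1/r)`, and `V` is the product up to `X`. -/
def Regular (n b c : ℤ) (X A r : ℕ) (c₁ c₂ K : ℝ) (s : ℕ) : Prop :=
  ∀ u v : ℕ, u ≤ s → s ≤ v → K / V n b c X ≤ (v : ℝ) - u → (v : ℝ) - u ≤ s →
    c₁ * ((v : ℝ) - u) * V n b c X ≤
      ({p : ℕ | u < p ∧ p ≤ v ∧ Good n b c ((A + 1) * r) ((X : ℝ) ^ (1 / (r : ℝ))) p}.ncard : ℝ) ∧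
    ({m : ℕ | u < m ∧ m ≤ v ∧ Sieved n b c ((X : ℝ) ^ (1 / (r : ℝ))) m}.ncard : ℝ) ≤
      c₂ * ((v : ℝ) - u) * V n b c X

open Pool.Agent.H373R2.T7 Pool.Agent.W123.RP Pool.Agent.W123.RU Pool.Agent.N39.RW

/-- the condition `p ∣ n - f(m)` -/
def QA (n b c : ℤ) (p m : ℕ) : Prop := (p : ℤ) ∣ n - f b c m

theorem dvd_f (n b c p x y : ℤ) (h : p ∣ x - y) (h1 : p ∣ n - f b c x) : p ∣ n - f b c y := by
  have h2 : n - f b c y = (n - f b c x) + (x - y) * (x + y + b) := by unfold f; ring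
  rw [h2]
  exact dvd_add h1 (h.mul_right _)

theorem dvd_f_iff (n b c p x y : ℤ) (h : p ∣ x - y) : p ∣ n - f b c x ↔ p ∣ n - f b c y :=
  ⟨dvd_f n b c p x y h, dvd_f n b c p y x (by
    have h2 : y - x = -(x - y) := by ring
    rw [h2]
    exact (dvd_neg).2 h)⟩

theorem two_roots (n b c : ℤ) (p x y : ℕ) (hp : p.Prime) (hx : x < p) (hy : y < p) (hxy : x ≠ y)
    (h1 : QA n b c p x) (h2 : QA n b c p y) : (p : ℤ) ∣ x + y + b := by
  unfold QA at h1 h2
  have h3 : (p : ℤ) ∣ ((x : ℤ) - y) * (x + y + b) := by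
    have h4 := dvd_sub h2 h1
    have h5 : n - f b c y - (n - f b c x) = ((x : ℤ) - y) * (x + y + b) := by unfold f; ring
    rwa [h5] at h4
  rcases (Nat.prime_iff_prime_int.1 hp).dvd_or_dvd h3 with h4 | h4
  · exfalso
    have h5 : |(x : ℤ) - y| < p := by
      rw [abs_lt]
      constructor <;> omega
    have := Int.eq_zero_of_abs_lt_dvd h4 h5
    omega
  · exact h4

theorem perA_QA (n b c : ℤ) : PerA (QA n b c) 2 where
  per := fun p m => by
    unfold QA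
    apply dvd_f_iff
    refine ⟨((m / p : ℕ) : ℤ), ?_⟩
    have h : (m : ℤ) = p * (m / p : ℕ) + (m % p : ℕ) := by exact_mod_cast (Nat.div_add_mod m p).symm
    linarith
  few := fun p hp => by
    classical
    by_contra hcon
    rw [not_le] at hcon
    unfold rhoA at hcon
    obtain ⟨x, hx, y, hy, z, hz, hxy, hxz, hyz⟩ := Finset.two_lt_card.1 hcon
    simp only [Finset.mem_filter, Finset.mem_range] at hx hy hz
    have h1 := two_roots n b c p x y hp hx.1 hy.1 hxy hx.2.2 hy.2.2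
    have h2 := two_roots n b c p x z hp hx.1 hz.1 hxz hx.2.2 hz.2.2
    have h3 : (p : ℤ) ∣ (y : ℤ) - z := by
      have h4 := dvd_sub h1 h2
      have h5 : (x : ℤ) + y + b - (x + z + b) = (y : ℤ) - z := by ring
      rwa [h5] at h4
    have h5 : |(y : ℤ) - z| < p := by
      rw [abs_lt]
      constructor <;> omega
    have := Int.eq_zero_of_abs_lt_dvd h3 h5
    omega

theorem adm_QQ (n b c : ℤ) (hn : Odd n) (hbc : Odd (b + c)) (h3 : ¬ (3 : ℤ) ∣ b) (p : ℕ) (hp : p.Prime) :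
    nuB (QQ (QA n b c)) p < p := by
  classical
  rw [nuQQ _ p hp]
  have hfew := (perA_QA n b c).few p hp
  rcases Nat.lt_or_ge p 4 with h4 | h4
  · have h2 := hp.two_le
    rcases (by omega : p = 2 ∨ p = 3) with rfl | rfl
    · have h5 : rhoA (QA n b c) 2 = 0 := by
        unfold rhoA
        rw [Finset.card_eq_zero, Finset.eq_empty_iff_forall_notMem]
        intro x hx
        simp only [Finset.mem_filter, Finset.mem_range] at hx
        obtain ⟨hx1, hx2, hx3⟩ := hx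
        have hx4 : x = 1 := by omega
        subst hx4
        unfold QA f at hx3
        obtain ⟨k, hk⟩ := hn
        obtain ⟨l, hl⟩ := hbc
        obtain ⟨j, hj⟩ := hx3
        push_cast at hj
        omega
      omega
    · have h5 : rhoA (QA n b c) 3 ≤ 1 := by
        unfold rhoA
        rw [Finset.card_le_one]
        intro x hx y hy
        simp only [Finset.mem_filter, Finset.mem_range] at hx hy
        by_contra hxy
        have h6 := two_roots n b c 3 x y hp hx.1 hy.1 hxy hx.2.2 hy.2.2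
        obtain ⟨j, hj⟩ := h6
        apply h3
        have hxy2 : x + y = 3 := by omega
        have hxy3 : (x : ℤ) + y = 3 := by exact_mod_cast hxy2
        refine ⟨j - 1, ?_⟩
        push_cast at hj
        linarith
      omega
  · have : p ≠ 4 := by rintro rfl; exact absurd hp (by norm_num)
    omega

/-- the primes with a collision at the distance `h` -/
theorem coll_cases (n b c : ℤ) (p T h : ℕ) (hp : p.Prime) (hT : T < p) (hh : 1 ≤ h) (hhT : h ≤ T)
    (hC : CoG (QQ (QA n b c)) p h) :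
    (p : ℤ) ∣ n - f b c h ∨ (p : ℤ) ∣ n - f b c (-h) ∨ (p : ℤ) ∣ 4 * n - 4 * c + b ^ 2 - (h : ℤ) ^ 2 := by
  have hph : ¬ (p : ℤ) ∣ (h : ℤ) := by
    intro hd
    have := Nat.le_of_dvd (by omega) (Int.natCast_dvd_natCast.1 hd)
    omega
  obtain ⟨m, h1, h2⟩ := hC
  rcases h1 with h1 | h1 <;> rcases h2 with h2 | h2
  · exfalso
    apply hph
    have h3 : (p : ℤ) ∣ (m : ℤ) := Int.natCast_dvd_natCast.2 h1
    have h4 : (p : ℤ) ∣ ((m + h : ℕ) : ℤ) := Int.natCast_dvd_natCast.2 h2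
    push_cast at h4
    exact (Int.dvd_iff_dvd_of_dvd_add (by rwa [add_comm] at h4)).2 h3
  · left
    unfold QA at h2
    refine dvd_f n b c p _ _ ?_ h2
    push_cast
    have h3 : (p : ℤ) ∣ (m : ℤ) := Int.natCast_dvd_natCast.2 h1
    have h4 : (m : ℤ) + h - h = m := by ring
    rw [h4]
    exact h3
  · right; left
    unfold QA at h1
    refine dvd_f n b c p _ _ ?_ h1
    have h4 : (p : ℤ) ∣ ((m + h : ℕ) : ℤ) := Int.natCast_dvd_natCast.2 h2
    push_cast at h4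
    have h5 : (m : ℤ) - -(h : ℤ) = m + h := by ring
    rw [h5]
    exact h4
  · right; right
    unfold QA at h1 h2
    have h3 : (p : ℤ) ∣ (h : ℤ) * (2 * m + h + b) := by
      have h4 := dvd_sub h1 h2
      have h5 : n - f b c m - (n - f b c ((m + h : ℕ) : ℤ)) = (h : ℤ) * (2 * m + h + b) := by
        unfold f
        push_cast
        ring
      rwa [h5] at h4
    have h4 := ((Nat.prime_iff_prime_int.1 hp).dvd_or_dvd h3).resolve_left hph
    have h5 : 4 * n - 4 * c + b ^ 2 - (h : ℤ) ^ 2 = 4 * (n - f b c m) + (2 * m + h + b) * (2 * m + b - h) := by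
      unfold f
      ring
    rw [h5]
    exact dvd_add (h1.mul_left 4) (h4.mul_right _)

theorem card_small (F : Finset ℕ) (M : ℤ) (X A : ℕ) (hX : 2 ≤ X) (hM : M ≠ 0) (hMX : |M| ≤ (X : ℤ) ^ (A + 4))
    (hF : ∀ p ∈ F, p.Prime ∧ (p : ℤ) ∣ M) : (F.card : ℝ) ≤ 2 * (A + 4) * Real.log X := by
  have h1 := card_le_log F M.natAbs (Int.natAbs_ne_zero.2 hM) (fun p hp =>
    ⟨(hF p hp).1, Int.natCast_dvd.1 (hF p hp).2⟩)
  have hX0 : (0 : ℝ) < X := by exact_mod_cast (by omega : 0 < X)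
  have h2 : Real.log (M.natAbs : ℝ) ≤ (A + 4) * Real.log X := by
    have h3 : ((M.natAbs : ℕ) : ℝ) ≤ (X : ℝ) ^ (A + 4) := by
      have h4 : ((M.natAbs : ℕ) : ℤ) ≤ (X : ℤ) ^ (A + 4) := by rw [Int.natCast_natAbs]; exact hMX
      exact_mod_cast h4
    have h5 : (0 : ℝ) < M.natAbs := by exact_mod_cast Nat.pos_of_ne_zero (Int.natAbs_ne_zero.2 hM)
    calc Real.log (M.natAbs : ℝ) ≤ Real.log ((X : ℝ) ^ (A + 4)) := Real.log_le_log h5 h3
      _ = (A + 4) * Real.log X := by rw [Real.log_pow]; push_cast; ring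
  have h3 : (1 / 2 : ℝ) ≤ Real.log 2 := by
    have := Real.log_two_gt_d9
    linarith
  have h4 : (F.card : ℝ) * (1 / 2) ≤ (F.card : ℝ) * Real.log 2 :=
    mul_le_mul_of_nonneg_left h3 (Nat.cast_nonneg _)
  linarith

theorem pow_big (X A : ℕ) (hX : 16 ≤ X) (n : ℤ) (hn1 : (64 : ℤ) * (X : ℤ) ^ 2 ≤ n) (hn2 : n ≤ (X : ℤ) ^ A) :
    n + 10 * (X : ℤ) ^ 2 ≤ (X : ℤ) ^ (A + 1) ∧ 4 * n + 10 * (X : ℤ) ^ 2 ≤ (X : ℤ) ^ (A + 4) := by
  have hX1 : (16 : ℤ) ≤ X := by exact_mod_cast hX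
  have hX2 : (256 : ℤ) ≤ (X : ℤ) ^ 2 := by nlinarith
  have hn0 : 0 < n := by nlinarith
  have hA0 : 0 < (X : ℤ) ^ A := by positivity
  have h1 : 16 * n ≤ (X : ℤ) ^ (A + 1) := by
    rw [pow_succ]
    nlinarith
  have h2 : (X : ℤ) ^ (A + 1) ≤ (X : ℤ) ^ (A + 4) := pow_le_pow_right₀ (by linarith) (by omega)
  constructor <;> nlinarith

theorem result (A : ℕ) : ∃ r : ℕ, 2 ≤ r ∧ ∃ c₁ c₂ K μ κ : ℝ, 0 < c₁ ∧ 0 < c₂ ∧ 0 < K ∧ 0 < μ ∧ 0 < κ ∧
    ∀ᶠ X : ℕ in atTop, ∀ n b c : ℤ, Odd n → Odd (b + c) → ¬ (3 : ℤ) ∣ b → |b| ≤ X → |c| ≤ (X : ℤ) ^ 2 →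
      (∀ m : ℤ, n ≠ f b c m) → 64 * (X : ℤ) ^ 2 ≤ n → n ≤ (X : ℤ) ^ A →
      κ / Real.log X ^ 6 ≤ V n b c X ∧
      μ * X ≤ ({s : ℕ | X < s ∧ s ≤ 2 * X ∧ Regular n b c X A r c₁ c₂ K s}.ncard : ℝ) := by
  classical
  obtain ⟨κ₀, hκ₀, hU⟩ := uniA
  obtain ⟨D', hD'⟩ : ∃ D' : ℕ, D' = ⌈6 * (A + 4) / κ₀⌉₊ := ⟨_, rfl⟩
  obtain ⟨K0, hK0, hr⟩ := hU 2 D' (by norm_num)
  obtain ⟨c₁, c₂, K, μ, hc₁, hc₂, hK, hμ, hmain⟩ := hr K0 le_rfl
  obtain ⟨κ, hκ, hVge⟩ := Vq_ge 3
  refine ⟨K0, hK0, c₁, c₂, K, μ, κ, hc₁, hc₂, by linarith, hμ, hκ, ?_⟩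
  filter_upwards [hmain, eventually_ge_atTop 16] with X hmain hX16
  intro n b c hn hbc h3 hb hc hnf hn1 hn2
  have hX1 : (16 : ℤ) ≤ X := by exact_mod_cast hX16
  have hXr : (16 : ℝ) ≤ X := by exact_mod_cast hX16
  have hXpos : (0 : ℝ) < X := by linarith
  have hlX : 0 < Real.log X := Real.log_pos (by linarith)
  have hb1 := abs_le.1 hb
  have hc1 := abs_le.1 hc
  obtain ⟨hbig1, hbig4⟩ := pow_big X A hX16 n hn1 hn2
  have hadm := adm_QQ n b c hn hbc h3
  have hper := perA_QA n b c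
  have hVV : V n b c X = Vq (QQ (QA n b c)) X := by
    unfold V Vq pz
    apply Finset.prod_congr rfl
    intro q hq
    rw [Finset.mem_filter] at hq
    have h1 : nu n b c q = nuB (QQ (QA n b c)) q := by
      unfold nu nuB
      congr 1
      ext m
      simp only [Finset.mem_filter, Finset.mem_range]
      apply and_congr Iff.rfl
      rw [(Nat.prime_iff_prime_int.1 hq.2).dvd_mul, Int.natCast_dvd_natCast]
      rfl
    rw [h1]
  constructor
  · rw [hVV]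
    exact hVge X (by omega) _ (perQQ _ 2 hper) hadm
  have hfin := hmain (QA n b c) hper hadm (by
    intro T hT1 hT2 h hh
    rw [Finset.mem_Icc] at hh
    obtain ⟨y, hy⟩ : ∃ y : ℕ, y = ⌊(X : ℝ) ^ (1 / (K0 : ℝ))⌋₊ := ⟨_, rfl⟩
    rw [← hy]
    have hh2 : (h : ℤ) ≤ X := by exact_mod_cast hh.2.trans hT2
    have hh0 : (0 : ℤ) ≤ h := by positivity
    have hhh : (h : ℤ) ^ 2 ≤ (X : ℤ) ^ 2 := pow_le_pow_left₀ hh0 hh2 2
    have hh00 : 0 ≤ (h : ℤ) ^ 2 := by positivity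
    have hbb : b ^ 2 ≤ (X : ℤ) ^ 2 := sq_le_sq' hb1.1 hb1.2
    have hbb0 : 0 ≤ b ^ 2 := by positivity
    have hbh : |b * h| ≤ (X : ℤ) ^ 2 := by
      rw [abs_mul, abs_of_nonneg hh0, pow_two]
      exact mul_le_mul hb hh2 hh0 (by positivity)
    have hbh1 := abs_le.1 hbh
    have hXX : 0 < (X : ℤ) ^ 2 := by positivity
    have hsub : (pz y).filter (fun p : ℕ => T < p ∧ CoG (QQ (QA n b c)) p h) ⊆
        ((pz y).filter (fun p : ℕ => (p : ℤ) ∣ n - f b c h) ∪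
          (pz y).filter (fun p : ℕ => (p : ℤ) ∣ n - f b c (-h))) ∪
          (pz y).filter (fun p : ℕ => (p : ℤ) ∣ 4 * n - 4 * c + b ^ 2 - (h : ℤ) ^ 2) := by
      intro p hp
      simp only [Finset.mem_union, Finset.mem_filter] at hp ⊢
      have := coll_cases n b c p T h (mem_pz.1 hp.1).2 hp.2.1 hh.1 hh.2 hp.2.2
      tauto
    have h1 := (Finset.card_le_card hsub).trans
      ((Finset.card_union_le _ _).trans (Nat.add_le_add_right (Finset.card_union_le _ _) _))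
    have h2 := card_small ((pz y).filter (fun p : ℕ => (p : ℤ) ∣ n - f b c h)) (n - f b c h) X A (by omega)
      (sub_ne_zero.2 (hnf _)) (by
        unfold f
        rw [abs_le]
        constructor <;> nlinarith) (fun p hp => by
        rw [Finset.mem_filter] at hp
        exact ⟨(mem_pz.1 hp.1).2, hp.2⟩)
    have h3 := card_small ((pz y).filter (fun p : ℕ => (p : ℤ) ∣ n - f b c (-h))) (n - f b c (-h)) X A (by omega)
      (sub_ne_zero.2 (hnf _)) (by
        unfold f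
        rw [abs_le]
        constructor <;> nlinarith) (fun p hp => by
        rw [Finset.mem_filter] at hp
        exact ⟨(mem_pz.1 hp.1).2, hp.2⟩)
    have h4 := card_small ((pz y).filter (fun p : ℕ => (p : ℤ) ∣ 4 * n - 4 * c + b ^ 2 - (h : ℤ) ^ 2))
      (4 * n - 4 * c + b ^ 2 - (h : ℤ) ^ 2) X A (by omega) (by nlinarith) (by
        rw [abs_le]
        constructor <;> nlinarith) (fun p hp => by
        rw [Finset.mem_filter] at hp
        exact ⟨(mem_pz.1 hp.1).2, hp.2⟩)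
    have h5 : ((((pz y).filter (fun p : ℕ => T < p ∧ CoG (QQ (QA n b c)) p h)).card : ℕ) : ℝ) ≤
        6 * (A + 4) * Real.log X := by
      have h6 : ((((pz y).filter (fun p : ℕ => T < p ∧ CoG (QQ (QA n b c)) p h)).card : ℕ) : ℝ) ≤
          ((((pz y).filter (fun p : ℕ => (p : ℤ) ∣ n - f b c h)).card +
          ((pz y).filter (fun p : ℕ => (p : ℤ) ∣ n - f b c (-h))).card +
          ((pz y).filter (fun p : ℕ => (p : ℤ) ∣ 4 * n - 4 * c + b ^ 2 - (h : ℤ) ^ 2)).card : ℕ) : ℝ) := by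
        exact_mod_cast h1
      push_cast at h6
      linarith
    have h6 : 6 * (A + 4) * Real.log X ≤ (D' : ℝ) * T := by
      have h7 : 6 * ((A : ℝ) + 4) / κ₀ ≤ D' := by rw [hD']; exact Nat.le_ceil _
      calc 6 * ((A : ℝ) + 4) * Real.log X = (6 * ((A : ℝ) + 4) / κ₀) * (κ₀ * Real.log X) := by field_simp
        _ ≤ (D' : ℝ) * T := mul_le_mul h7 hT1 (by positivity) (Nat.cast_nonneg _)
    have h7 := h5.trans h6
    have h8 : ((((pz y).filter (fun p : ℕ => T < p ∧ CoG (QQ (QA n b c)) p h)).card : ℕ) : ℝ) ≤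
      ((D' * T : ℕ) : ℝ) := by push_cast; exact h7
    have h9 : ((pz y).filter (fun p : ℕ => T < p ∧ CoG (QQ (QA n b c)) p h)).card ≤ D' * T := by exact_mod_cast h8
    refine (le_of_eq ?_).trans h9
    congr)
  refine hfin.trans ?_
  have hfinset : ((Finset.Ioc X (2 * X)).filter (fun s => Regular n b c X A K0 c₁ c₂ K s) : Set ℕ) =
      {s : ℕ | X < s ∧ s ≤ 2 * X ∧ Regular n b c X A K0 c₁ c₂ K s} := by
    ext s
    simp [and_assoc]
  rw [← hfinset, Set.ncard_coe_finset, Nat.cast_le]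
  apply Finset.card_le_card
  intro s hs
  simp only [Finset.mem_filter, Finset.mem_Ioc] at hs ⊢
  refine ⟨hs.1, ?_⟩
  obtain ⟨⟨hsX1, hsX2⟩, hs2⟩ := hs
  intro u v hu hv huv1 huv2
  rw [hVV] at huv1 ⊢
  obtain ⟨h1, h2⟩ := hs2 u v hu hv huv1 huv2
  have hvX : v ≤ 4 * X := by
    have h4 : (v : ℝ) ≤ s + u := by linarith
    have h5 : v ≤ s + u := by exact_mod_cast h4
    omega
  have hz0 : (0 : ℝ) ≤ (X : ℝ) ^ (1 / (K0 : ℝ)) := by positivity
  have hz1 : (1 : ℝ) ≤ (X : ℝ) ^ (1 / (K0 : ℝ)) := Real.one_le_rpow (by linarith) (by positivity)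
  have hK00 : (K0 : ℝ) ≠ 0 := by
    have : 0 < K0 := by omega
    exact_mod_cast this.ne'
  constructor
  · refine h1.trans ?_
    have hset : ((Finset.Ioc u v).filter (fun p => Good n b c ((A + 1) * K0) ((X : ℝ) ^ (1 / (K0 : ℝ))) p) : Set ℕ) =
        {p : ℕ | u < p ∧ p ≤ v ∧ Good n b c ((A + 1) * K0) ((X : ℝ) ^ (1 / (K0 : ℝ))) p} := by
      ext s
      simp [and_assoc]
    rw [← hset, Set.ncard_coe_finset, Nat.cast_le]
    apply Finset.card_le_card
    intro m hm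
    simp only [Finset.mem_filter, Finset.mem_Ioc] at hm ⊢
    obtain ⟨⟨hm1, hm2⟩, hm3, hm4⟩ := hm
    refine ⟨⟨hm1, hm2⟩, hm3, ?_⟩
    have hm5 : (m : ℤ) ≤ 4 * X := by exact_mod_cast hm2.trans hvX
    have hm0 : (0 : ℤ) ≤ m := by positivity
    have hmm : (m : ℤ) ^ 2 ≤ (4 * X) ^ 2 := pow_le_pow_left₀ hm0 hm5 2
    have hmm0 : 0 ≤ (m : ℤ) ^ 2 := by positivity
    have hbm : |b * m| ≤ X * (4 * X) := by
      rw [abs_mul, abs_of_nonneg hm0]
      exact mul_le_mul hb hm5 hm0 (by positivity)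
    have hbm1 := abs_le.1 hbm
    have hXX : 0 < (X : ℤ) ^ 2 := by positivity
    have hpos : 0 < n - f b c m := by
      unfold f
      nlinarith
    have hup : n - f b c m ≤ (X : ℤ) ^ (A + 1) := by
      unfold f
      nlinarith
    obtain ⟨P, hP⟩ := Int.eq_ofNat_of_zero_le hpos.le
    have hP0 : 0 < P := by
      rw [hP] at hpos
      exact_mod_cast hpos
    have hq : ∀ q : ℕ, q.Prime → q ∣ P → (X : ℝ) ^ (1 / (K0 : ℝ)) < (q : ℝ) := by
      intro q hq hqP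
      by_contra hcon
      rw [not_lt] at hcon
      refine hm4 q (mem_pz.2 ⟨Nat.le_floor hcon, hq⟩) (Or.inr ?_)
      unfold QA
      rw [hP]
      exact Int.natCast_dvd_natCast.2 hqP
    refine ⟨P, by linarith, hP0, ?_, hq⟩
    apply length_le P ((A + 1) * K0) hP0.ne' _ hq _ hz1
    have h5 : (P : ℝ) ≤ (X : ℝ) ^ (A + 1) := by
      rw [hP] at hup
      exact_mod_cast hup
    have h6 : ((X : ℝ) ^ (1 / (K0 : ℝ))) ^ K0 = X := by
      rw [← Real.rpow_natCast, ← Real.rpow_mul hXpos.le, one_div, inv_mul_cancel₀ hK00, Real.rpow_one]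
    have h7 : ((X : ℝ) ^ (1 / (K0 : ℝ))) ^ ((A + 1) * K0) = (X : ℝ) ^ (A + 1) := by
      rw [mul_comm, pow_mul, h6]
    calc (P : ℝ) ≤ (X : ℝ) ^ (A + 1) := h5
      _ = ((X : ℝ) ^ (1 / (K0 : ℝ))) ^ ((A + 1) * K0) := h7.symm
      _ ≤ ((X : ℝ) ^ (1 / (K0 : ℝ))) ^ ((A + 1) * K0 + 1) := pow_le_pow_right₀ hz1 (by omega)
  · refine le_trans ?_ h2
    have hset : ((Finset.Ioc u v).filter (fun m => Sieved n b c ((X : ℝ) ^ (1 / (K0 : ℝ))) m) : Set ℕ) =
        {m : ℕ | u < m ∧ m ≤ v ∧ Sieved n b c ((X : ℝ) ^ (1 / (K0 : ℝ))) m} := by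
      ext s
      simp [and_assoc]
    rw [← hset, Set.ncard_coe_finset, Nat.cast_le]
    apply Finset.card_le_card
    intro m hm
    simp only [Finset.mem_filter, Finset.mem_Ioc] at hm ⊢
    refine ⟨hm.1, fun p hp hQ => ?_⟩
    have hpp := (mem_pz.1 hp).2
    have h3 := hm.2 p hpp (by
      rcases hQ with hQ | hQ
      · exact (Int.natCast_dvd_natCast.2 hQ).mul_right _
      · exact Dvd.dvd.mul_left hQ _)
    have h4 := mem_pz' hz0 hp
    linarith

end Pool.Agent.Results.MP_d9bc60_nt.WindowsOfArguments
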